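import Mathlib
import Pool.Agent.Helper189.FreeRep

namespace Pool.Agent.Results.MP_c4ae4c_al.OnlyProducts

open FreeGroup

/-- `w(x,y)`: the element of `G` obtained from `w ∈ F₂` by substituting `a ↦ x`, `b ↦ y`. -/
noncomputable def ev {G : Type*} [Group G] (w : FreeGroup (Fin 2)) (x y : G) : G :=
  FreeGroup.lift ![x, y] w

/-- A binary operation on a type makes it into a group. -/
def IsGroupOp {Q : Type*} (op : Q → Q → Q) : Prop :=
  (∀ x y z, op (op x y) z = op x (op y z)) ∧
    ∃ e, (∀ x, op e x = x ∧ op x e = x) ∧ ∀ x, ∃ y, op x y = e ∧ op y x = e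

/-- `γ_k(G)` for `k ≥ 1` (Mathlib's lower central series starts at index `0`). -/
def gam (G : Type*) [Group G] (k : ℕ) : Subgroup G := (⊤ : Subgroup G).lowerCentralSeries (k - 1)

instance (G : Type*) [Group G] (k : ℕ) : (gam G k).Normal := by
  unfold gam; infer_instance

/-- Property (N). -/
def PropertyN (w : FreeGroup (Fin 2)) : Prop :=
  ∀ n : ℕ, 2 ≤ n → ∀ k : ℕ, 1 ≤ k →
    IsGroupOp (fun x y : FreeGroup (Fin n) ⧸ gam (FreeGroup (Fin n)) k => ev w x y)

theorem map_ev {G H : Type*} [Group G] [Group H] (f : G →* H) (w : FreeGroup (Fin 2)) (x y : G) :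
    f (ev w x y) = ev w (f x) (f y) := by
  unfold ev
  have : (f.comp (FreeGroup.lift ![x, y])) = FreeGroup.lift ![f x, f y] := by
    apply FreeGroup.ext_hom
    intro i
    fin_cases i <;> simp
  exact DFunLike.congr_fun this w

/-! ### counting letters -/

section
variable {α : Type*} [DecidableEq α]

/-- number of letters `z^{±1}` in a word -/
def cnt (z : α) (l : List (α × Bool)) : ℕ := l.countP (fun p => p.1 = z)

@[simp] theorem cnt_nil (z : α) : cnt z [] = 0 := rfl
theorem cnt_append (z : α) (l m : List (α × Bool)) : cnt z (l ++ m) = cnt z l + cnt z m :=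
  List.countP_append
theorem cnt_cons (z : α) (x : α × Bool) (l : List (α × Bool)) :
    cnt z (x :: l) = (if x.1 = z then 1 else 0) + cnt z l := by
  unfold cnt
  rw [List.countP_cons]
  simp [add_comm]

theorem cnt_invRev (z : α) (l : List (α × Bool)) : cnt z (invRev l) = cnt z l := by
  unfold cnt invRev
  rw [List.countP_reverse, List.countP_map]
  rfl

theorem cnt_flatten_replicate (z : α) (n : ℕ) (l : List (α × Bool)) :
    cnt z (List.replicate n l).flatten = n * cnt z l := by
  induction n with
  | zero => simp
  | succ n ih => rw [List.replicate_succ, List.flatten_cons, cnt_append, ih]; ring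

/-- number of letters `z^{±1}` in the reduced word of `g` -/
def Z (z : α) (g : FreeGroup α) : ℕ := cnt z g.toWord

theorem Z_mul_le (z : α) (g h : FreeGroup α) : Z z (g * h) ≤ Z z g + Z z h := by
  unfold Z
  rw [← cnt_append]
  exact (toWord_mul_sublist g h).countP_le

theorem Z_inv (z : α) (g : FreeGroup α) : Z z g⁻¹ = Z z g := by
  unfold Z
  rw [toWord_inv, cnt_invRev]

/-- A lower bound for the letter count in powers. -/
theorem Z_pow (z : α) (g : FreeGroup α) (hg : 2 ≤ Z z g)
    (hcore : 1 ≤ cnt z (reduceCyclically g.toWord)) (n : ℕ) (hn : 1 ≤ n) :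
    n + 1 ≤ Z z (g ^ n) := by
  obtain ⟨m, rfl⟩ : ∃ m, n = m + 1 := ⟨n - 1, by omega⟩
  unfold Z at hg ⊢
  rw [toWord_pow, reduceCyclically.reduce_flatten_replicate_succ isReduced_toWord, cnt_append,
    cnt_append, cnt_invRev, cnt_flatten_replicate]
  have h := congrArg (cnt z) (reduceCyclically.conj_conjugator_reduceCyclically g.toWord)
  rw [cnt_append, cnt_append, cnt_invRev] at h
  set c := cnt z (reduceCyclically.conjugator g.toWord)
  set d := cnt z (reduceCyclically g.toWord)
  rw [← h] at hg
  by_cases hd : 2 ≤ d
  · nlinarith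
  · have : d = 1 := by omega
    rw [this] at hg ⊢
    omega

/-- exponent sum of `z` -/
def es (z : α) : FreeGroup α →* Multiplicative ℤ :=
  FreeGroup.lift (fun x => if x = z then Multiplicative.ofAdd 1 else 1)

theorem es_eq_one_of_cnt (z : α) (l : List (α × Bool)) (h : cnt z l = 0) : es z (mk l) = 1 := by
  induction l with
  | nil => simp [← one_eq_mk]
  | cons x l ih =>
    rw [cnt_cons] at h
    have e : (mk (x :: l) : FreeGroup α) = mk [x] * mk l := by rw [mul_mk]; rfl
    rw [e, _root_.map_mul, ih (by omega)]
    rcases x with ⟨x, b⟩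
    have hx : x ≠ z := by
      intro hx
      simp [hx] at h
    cases b <;> simp [es, hx]

theorem core_pos (z : α) (g : FreeGroup α) (h : es z g ≠ 1) :
    1 ≤ cnt z (reduceCyclically g.toWord) := by
  by_contra hcon
  apply h
  have h0 : cnt z (reduceCyclically g.toWord) = 0 := by omega
  have h1 := es_eq_one_of_cnt z _ h0
  have h2 := reduceCyclically.conj_conjugator_reduceCyclically g.toWord
  conv_lhs => rw [← mk_toWord (x := g), ← h2]
  rw [← mul_mk, ← mul_mk, _root_.map_mul, _root_.map_mul, h1, ← inv_mk, _root_.map_inv]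
  simp

end

/-! ### the substitution lemma -/

/-- the letters of `F₃` -/
abbrev F3 := FreeGroup (Fin 3)

theorem red_append {α : Type*} {l m : List (α × Bool)} (hl : IsReduced l) (hm : IsReduced m)
    (h : ∀ x ∈ l.getLast?, ∀ y ∈ m.head?, x.1 ≠ y.1) : IsReduced (l ++ m) := by
  unfold FreeGroup.IsReduced at *
  rw [List.isChain_append]
  exact ⟨hl, hm, fun x hx y hy hxy => absurd hxy (h x hx y hy)⟩

theorem split_run {l : List (Fin 2 × Bool)} (hl : IsReduced l) (x : Fin 2 × Bool)
    (hx : l.head? = some x) : ∃ (j : ℕ) (l' : List (Fin 2 × Bool)), 1 ≤ j ∧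
      l = List.replicate j x ++ l' ∧ ∀ y ∈ l'.head?, y.1 ≠ x.1 := by
  induction l with
  | nil => simp at hx
  | cons a l ih =>
    simp only [List.head?_cons, Option.some.injEq] at hx
    subst hx
    rcases l with _ | ⟨b, l⟩
    · exact ⟨1, [], le_refl _, by simp, by simp⟩
    · by_cases hb : b.1 = a.1
      · have hl' : IsReduced (b :: l) := by
          unfold FreeGroup.IsReduced at *
          exact (List.isChain_cons_cons.mp hl).2
        have hab : b = a := by
          unfold FreeGroup.IsReduced at hl
          have := (List.isChain_cons_cons.mp hl).1 hb.symm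
          exact Prod.ext hb this.symm
        obtain ⟨j, l', hj, e, h⟩ := ih hl' (by simp [hab])
        exact ⟨j + 1, l', by omega, by rw [e, List.replicate_succ]; rfl, h⟩
      · exact ⟨1, b :: l, le_refl _, by simp, by simpa using hb⟩

/-- evaluation of a list of letters -/
noncomputable def evl (v : F3) (l : List (Fin 2 × Bool)) : F3 := ev (mk l) (of 0) v

theorem evl_append (v : F3) (l m : List (Fin 2 × Bool)) : evl v (l ++ m) = evl v l * evl v m := by
  unfold evl ev
  rw [← mul_mk, _root_.map_mul]

theorem evl_replicate_one (v : F3) (j : ℕ) (b : Bool) :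
    evl v (List.replicate j (1, b)) = (if b then v else v⁻¹) ^ j := by
  induction j with
  | zero => simp [evl, ev, ← one_eq_mk]
  | succ j ih =>
    rw [List.replicate_succ', evl_append, ih, pow_succ]
    congr 1
    cases b <;> simp [evl, ev]

theorem evl_zero (v : F3) (b : Bool) : evl v [(0, b)] = mk [(0, b)] := by
  cases b <;> simp [evl, ev, of, inv_mk, invRev]

theorem subst_main (v : F3)
    (hv : ∀ (n : ℕ) (b : Bool), 1 ≤ n → n + 1 ≤ Z 2 ((if b then v else v⁻¹) ^ n))
    (hv0 : ∀ (n : ℕ) (b : Bool), Z 0 ((if b then v else v⁻¹) ^ n) = 0) :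
    ∀ (N : ℕ) (l : List (Fin 2 × Bool)), l.length ≤ N → IsReduced l →
      ((∀ b, l.head? = some (0, b) → (evl v l).toWord.head? = some (0, b)) ∧
       (∀ b, l.head? = some (1, b) → ∀ y ∈ (evl v l).toWord.head?, y.1 ≠ 0)) ∧
      cnt 1 l ≤ Z 2 (evl v l) ∧ (1 ≤ cnt 1 l → cnt 1 l + 1 ≤ Z 2 (evl v l)) := by
  intro N
  induction N with
  | zero =>
    intro l hl _
    have : l = [] := List.length_eq_zero_iff.mp (by omega)
    subst this
    simp
  | succ N ih =>
    intro l hlen hl
    rcases hh : l.head? with _ | x
    · have : l = [] := by simpa using hh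
      subst this
      simp
    rcases x with ⟨i, b⟩
    fin_cases i
    · -- the first letter is `a^±`
      simp only [Fin.zero_eta] at hh
      obtain ⟨l', rfl⟩ : ∃ l', l = (0, b) :: l' := by
        rcases l with _ | ⟨y, l'⟩
        · simp at hh
        · simp only [List.head?_cons, Option.some.injEq] at hh
          exact ⟨l', by rw [hh]⟩
      have hl' : IsReduced l' := by
        unfold FreeGroup.IsReduced at *
        exact hl.tail
      obtain ⟨⟨h1, h2⟩, h3, h4⟩ := ih l' (by simp at hlen; omega) hl'
      have hword : (evl v ((0, b) :: l')).toWord = (0, b) :: (evl v l').toWord := by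
        have e : evl v ((0, b) :: l') = mk [(0, b)] * evl v l' := by
          rw [← evl_zero v b, ← evl_append]; rfl
        rw [e]
        conv_lhs => rw [← mk_toWord (x := evl v l')]
        rw [mul_mk, toWord_mk]
        apply IsReduced.reduce_eq
        unfold FreeGroup.IsReduced
        rw [List.isChain_append]
        refine ⟨by simp, isReduced_toWord, fun x hx y hy hxy => ?_⟩
        simp only [List.getLast?_singleton, Option.mem_def, Option.some.injEq] at hx
        subst hx
        rcases hh' : l'.head? with _ | z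
        · have : l' = [] := by simpa using hh'
          subst this
          simp [evl, ev, ← one_eq_mk] at hy
        rcases z with ⟨k, c⟩
        fin_cases k
        · simp only [Fin.zero_eta] at hh'
          have h5 := h1 c hh'
          have h6 : y = (0, c) := by
            simp only [Option.mem_def] at hy
            rw [h5] at hy
            exact (Option.some.inj hy).symm
          subst h6
          have h7 : b = c := by
            rcases l' with _ | ⟨z, l''⟩
            · simp at hh'
            · simp only [List.head?_cons, Option.some.injEq] at hh'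
              subst hh'
              unfold FreeGroup.IsReduced at hl
              exact (List.isChain_cons_cons.mp hl).1 rfl
          exact h7
        · simp only [Fin.mk_one] at hh'
          exact absurd hxy.symm (h2 c hh' y hy)
      refine ⟨⟨?_, ?_⟩, ?_, ?_⟩
      · intro b' hb'
        have hbb : b = b' := by
          have := Option.some.inj hb'
          exact (Prod.mk.inj this).2
        subst hbb
        rw [hword]; rfl
      · intro b' hb'
        simp at hb'
      · unfold Z at h3 ⊢
        rw [hword, cnt_cons, cnt_cons]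
        simpa using h3
      · intro h
        unfold Z at h4 ⊢
        rw [cnt_cons] at h
        rw [hword, cnt_cons, cnt_cons]
        simpa using h4 (by simpa using h)
    · -- the first letter is `b^±`
      simp only [Fin.mk_one] at hh
      obtain ⟨j, l', hj, rfl, hl'h⟩ := split_run hl _ hh
      have hl' : IsReduced l' := by
        unfold FreeGroup.IsReduced at *
        rw [List.isChain_append] at hl
        exact hl.2.1
      obtain ⟨⟨h1, h2⟩, h3, h4⟩ := ih l' (by simp at hlen; omega) hl'
      have hhead : ∀ y ∈ (evl v l').toWord.head?, y.1 = 0 := by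
        intro y hy
        rcases hh' : l'.head? with _ | z
        · have : l' = [] := by simpa using hh'
          subst this
          simp [evl, ev, ← one_eq_mk] at hy
        rcases z with ⟨k, c⟩
        fin_cases k
        · simp only [Fin.zero_eta] at hh'
          have h5 := h1 c hh'
          simp only [Option.mem_def] at hy
          rw [h5] at hy
          rw [← Option.some.inj hy]
        · simp only [Fin.mk_one] at hh'
          exact absurd rfl (hl'h (1, c) (by rw [hh']; rfl))
      set g := (if b then v else v⁻¹) ^ j with hg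
      have hg0 : Z 0 g = 0 := hv0 j b
      have hg2 : j + 1 ≤ Z 2 g := hv j b hj
      have hno : ∀ y ∈ g.toWord, y.1 ≠ 0 := by
        intro y hy h0
        unfold Z cnt at hg0
        rw [List.countP_eq_zero] at hg0
        exact hg0 y hy (by simpa using h0)
      have hword : (evl v (List.replicate j (1, b) ++ l')).toWord = g.toWord ++ (evl v l').toWord := by
        rw [evl_append, evl_replicate_one, ← hg]
        conv_lhs => rw [← mk_toWord (x := g), ← mk_toWord (x := evl v l')]
        rw [mul_mk, toWord_mk]
        apply IsReduced.reduce_eq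
        apply red_append isReduced_toWord isReduced_toWord
        intro x hx y hy hxy
        have := hno x (List.mem_of_getLast? hx)
        rw [hxy, hhead y hy] at this
        exact this rfl
      have hcount : cnt 1 (List.replicate j ((1 : Fin 2), b) ++ l') = j + cnt 1 l' := by
        rw [cnt_append]
        congr 1
        simp [cnt, List.countP_replicate]
      have hgne : g.toWord ≠ [] := by
        intro h0
        simp [Z, h0] at hg2
      refine ⟨⟨?_, ?_⟩, ?_, ?_⟩
      · intro b' hb'
        have hb'' : some ((1 : Fin 2), b) = some (0, b') := hb'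
        simp at hb''
      · intro b' _ y hy
        rw [hword] at hy
        rcases hw : g.toWord with _ | ⟨z, t⟩
        · exact absurd hw hgne
        · rw [hw] at hy
          simp only [List.cons_append, List.head?_cons, Option.mem_def, Option.some.injEq] at hy
          subst hy
          exact hno z (by rw [hw]; simp)
      · rw [hcount]
        unfold Z at h3 hg2 ⊢
        rw [hword, cnt_append]
        omega
      · intro _
        rw [hcount]
        unfold Z at h3 hg2 ⊢
        rw [hword, cnt_append]
        omega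

/-- upper bound -/
theorem Z_ev_le (u : F3) (hu : Z 2 u = 0) (l : List (Fin 2 × Bool)) :
    Z 2 (ev (mk l) u (of 2)) ≤ cnt 1 l := by
  induction l with
  | nil => simp [ev, ← one_eq_mk, Z]
  | cons x l ih =>
    have e : (mk (x :: l) : FreeGroup (Fin 2)) = mk [x] * mk l := by rw [mul_mk]; rfl
    have e2 : ev (mk (x :: l)) u (of 2) = ev (mk [x]) u (of 2) * ev (mk l) u (of 2) := by
      unfold ev; rw [e, _root_.map_mul]
    rw [e2, cnt_cons]
    refine (Z_mul_le _ _ _).trans (Nat.add_le_add ?_ ih)
    rcases x with ⟨i, b⟩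
    fin_cases i
    · cases b
      · simp [ev, Z_inv, hu]
      · simp [ev, hu]
    · cases b
      · simp [ev, Z, cnt, invRev]
      · simp [ev, Z, cnt]

theorem Z_zero_of (v : F3) (hv : Z 0 v = 0) (b : Bool) (n : ℕ) :
    Z 0 ((if b then v else v⁻¹) ^ n) = 0 := by
  induction n with
  | zero => simp [Z]
  | succ n ih =>
    rw [pow_succ]
    have := Z_mul_le 0 ((if b then v else v⁻¹) ^ n) (if b then v else v⁻¹)
    have h2 : Z 0 (if b then v else v⁻¹) = 0 := by
      cases b
      · simp [Z_inv, hv]
      · simp [hv]
    omega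

/-- embedding of `F₂` in `F₃` along an injection of the letters -/
theorem ev_toWord (w : FreeGroup (Fin 2)) (i j : Fin 3) (hij : i ≠ j) :
    (ev w (of i) (of j)).toWord = w.toWord.map (fun p => (![i, j] p.1, p.2)) := by
  have hinj : Function.Injective (![i, j] : Fin 2 → Fin 3) := by
    intro a b hab
    fin_cases a <;> fin_cases b <;> simp_all
  have h1 : ev w (of i) (of j) = FreeGroup.map ![i, j] w := by
    unfold ev
    have : FreeGroup.lift ![of i, of j] = FreeGroup.map (![i, j] : Fin 2 → Fin 3) := by
      apply FreeGroup.ext_hom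
      intro k
      fin_cases k <;> simp
    rw [this]
  rw [h1]
  conv_lhs => rw [← mk_toWord (x := w)]
  rw [FreeGroup.map.mk, toWord_mk]
  apply IsReduced.reduce_eq
  have h2 := isReduced_toWord (x := w)
  unfold FreeGroup.IsReduced at *
  rw [List.isChain_map]
  refine h2.imp ?_
  intro a b hab h
  exact hab (hinj h)

theorem one_b (w : FreeGroup (Fin 2))
    (hassoc : ∀ x y z : F3, ev w (ev w x y) z = ev w x (ev w y z))
    (hb : es 1 w = Multiplicative.ofAdd 1) : cnt 1 w.toWord = 1 := by
  by_contra hne
  have h1 : 1 ≤ cnt 1 w.toWord := by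
    by_contra h0
    have h0' : cnt 1 w.toWord = 0 := by omega
    have := es_eq_one_of_cnt 1 _ h0'
    rw [mk_toWord, hb] at this
    exact absurd this (by decide)
  have h2 : 2 ≤ cnt 1 w.toWord := by omega
  set v : F3 := ev w (of 1) (of 2) with hv
  have hvw := ev_toWord w 1 2 (by decide)
  rw [← hv] at hvw
  have hZ2 : Z 2 v = cnt 1 w.toWord := by
    unfold Z cnt
    rw [hvw, List.countP_map]
    congr 1
    ext p
    rcases p with ⟨i, b⟩
    fin_cases i <;> simp
  have hZ0 : Z 0 v = 0 := by
    unfold Z cnt
    rw [hvw, List.countP_map, List.countP_eq_zero]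
    rintro ⟨i, b⟩ _
    fin_cases i <;> simp
  have hes : es 2 v ≠ 1 := by
    have e1 : es 2 v = es 1 w := by
      rw [hv, map_ev]
      unfold ev es
      congr 1
      apply FreeGroup.ext_hom
      intro i
      fin_cases i <;> simp
    rw [e1, hb]
    decide
  have hpow : ∀ n : ℕ, 1 ≤ n → n + 1 ≤ Z 2 (v ^ n) :=
    fun n hn => Z_pow 2 v (by omega) (core_pos 2 v hes) n hn
  have hpow' : ∀ (n : ℕ) (b : Bool), 1 ≤ n → n + 1 ≤ Z 2 ((if b then v else v⁻¹) ^ n) := by
    intro n b hn
    cases b
    · simp only [Bool.false_eq_true, if_false]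
      rw [inv_pow, Z_inv]
      exact hpow n hn
    · simpa using hpow n hn
  have hmain := (subst_main v hpow' (fun n b => Z_zero_of v hZ0 b n) _ w.toWord le_rfl
    isReduced_toWord).2.2 h1
  have hle := Z_ev_le (ev w (of 0) (of 1)) (by
    have hu := ev_toWord w 0 1 (by decide)
    unfold Z cnt
    rw [hu, List.countP_map, List.countP_eq_zero]
    rintro ⟨i, b⟩ _
    fin_cases i <;> simp) w.toWord
  rw [mk_toWord, hassoc] at hle
  unfold evl at hmain
  rw [mk_toWord] at hmain
  rw [← hv] at hle
  omega

/-- the swapped word -/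
def sw (w : FreeGroup (Fin 2)) : FreeGroup (Fin 2) := FreeGroup.map ![1, 0] w

theorem ev_sw {G : Type*} [Group G] (w : FreeGroup (Fin 2)) (x y : G) :
    ev (sw w) x y = ev w y x := by
  unfold ev sw
  have : (FreeGroup.lift ![x, y]).comp (FreeGroup.map ![1, 0]) = FreeGroup.lift ![y, x] := by
    apply FreeGroup.ext_hom
    intro i
    fin_cases i <;> simp
  exact DFunLike.congr_fun this w

theorem one_a (w : FreeGroup (Fin 2))
    (hassoc : ∀ x y z : F3, ev w (ev w x y) z = ev w x (ev w y z))
    (ha : es 0 w = Multiplicative.ofAdd 1) : cnt 0 w.toWord = 1 := by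
  have h1 := one_b (sw w) (by
    intro x y z
    simp only [ev_sw]
    exact (hassoc z y x).symm) (by
    rw [← ha]
    unfold es sw
    have : (FreeGroup.lift (fun x : Fin 2 => if x = 1 then Multiplicative.ofAdd (1:ℤ) else 1)).comp
      (FreeGroup.map ![1, 0]) =
      FreeGroup.lift (fun x : Fin 2 => if x = 0 then Multiplicative.ofAdd (1:ℤ) else 1) := by
      apply FreeGroup.ext_hom
      intro i
      fin_cases i <;> simp
    exact DFunLike.congr_fun this w)
  have h2 : (sw w).toWord = w.toWord.map (fun p => ((![1, 0] : Fin 2 → Fin 2) p.1, p.2)) := by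
    unfold sw
    conv_lhs => rw [← mk_toWord (x := w)]
    rw [FreeGroup.map.mk, toWord_mk]
    apply IsReduced.reduce_eq
    have h2 := isReduced_toWord (x := w)
    unfold FreeGroup.IsReduced at *
    rw [List.isChain_map]
    refine h2.imp ?_
    intro a b hab h
    apply hab
    have hinj : Function.Injective (![1, 0] : Fin 2 → Fin 2) := by decide
    exact hinj h
  unfold cnt at h1 ⊢
  rw [h2, List.countP_map] at h1
  refine Eq.trans ?_ h1
  congr 1
  ext p
  rcases p with ⟨i, b⟩
  fin_cases i <;> simp

theorem cnt_add (l : List (Fin 2 × Bool)) : cnt 0 l + cnt 1 l = l.length := by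
  induction l with
  | nil => rfl
  | cons x l ih =>
    rw [cnt_cons, cnt_cons, List.length_cons, ← ih]
    rcases x with ⟨i, b⟩
    fin_cases i <;> simp <;> ring

theorem classify (w : FreeGroup (Fin 2))
    (hassoc : ∀ x y z : F3, ev w (ev w x y) z = ev w x (ev w y z))
    (ha : es 0 w = Multiplicative.ofAdd 1) (hb : es 1 w = Multiplicative.ofAdd 1) :
    w = of 0 * of 1 ∨ w = of 1 * of 0 := by
  have h0 := one_a w hassoc ha
  have h1 := one_b w hassoc hb
  have hlen : w.toWord.length = 2 := by rw [← cnt_add, h0, h1]
  obtain ⟨x, y, hxy⟩ := List.length_eq_two.mp hlen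
  have hw : w = mk [x] * mk [y] := by
    rw [mul_mk, ← mk_toWord (x := w), hxy]; rfl
  rw [hxy] at h0 h1
  rw [hw] at ha hb
  rcases x with ⟨i, b⟩
  rcases y with ⟨j, c⟩
  fin_cases i <;> fin_cases j
  · simp [cnt] at h0
  · left
    rw [hw]
    cases b
    · exfalso
      simp [es] at ha
      exact absurd ha (by decide)
    · cases c
      · exfalso
        simp [es] at hb
        exact absurd hb (by decide)
      · rfl
  · right
    rw [hw]
    cases b
    · exfalso
      simp [es] at hb
      exact absurd hb (by decide)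
    · cases c
      · exfalso
        simp [es] at ha
        exact absurd ha (by decide)
      · rfl
  · simp [cnt] at h0

/-! ### property (N) -/

theorem quot_char {n k : ℕ} (hk : k = 2) (χ : FreeGroup (Fin n) →* Multiplicative ℤ) :
    ∃ χ' : FreeGroup (Fin n) ⧸ gam (FreeGroup (Fin n)) k →* Multiplicative ℤ,
      ∀ g, χ' (QuotientGroup.mk g) = χ g := by
  subst hk
  have h : gam (FreeGroup (Fin n)) 2 ≤ χ.ker := by
    have : gam (FreeGroup (Fin n)) 2 = commutator (FreeGroup (Fin n)) := by
      unfold gam
      simp [commutator_def]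
    rw [this]
    exact Abelianization.commutator_subset_ker χ
  exact ⟨QuotientGroup.lift _ χ h, fun g => rfl⟩

theorem ev_ab (w : FreeGroup (Fin 2)) (x y : Multiplicative ℤ) :
    ev w x y = x ^ (es 0 w).toAdd * y ^ (es 1 w).toAdd := by
  have h : FreeGroup.lift ![x, y] = (zpowersHom (Multiplicative ℤ) x).comp (es 0) *
      (zpowersHom (Multiplicative ℤ) y).comp (es 1) := by
    apply FreeGroup.ext_hom
    intro i
    fin_cases i <;> simp [es]
  have := DFunLike.congr_fun h w
  simpa [ev] using this

theorem es_of_N (w : FreeGroup (Fin 2)) (hN : PropertyN w) :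
    es 0 w = Multiplicative.ofAdd 1 ∧ es 1 w = Multiplicative.ofAdd 1 := by
  obtain ⟨-, e, he, -⟩ := hN 2 le_rfl 2 (by norm_num)
  obtain ⟨χ, hχ⟩ := quot_char (n := 2) (k := 2) rfl (es (0 : Fin 2))
  have h1 := he 1
  have h2 := he (QuotientGroup.mk (of 0))
  simp only at h1 h2
  have hof : χ (QuotientGroup.mk (of 0)) = Multiplicative.ofAdd 1 := by
    rw [hχ]; simp [es]
  have a1 := congrArg χ h1.1
  have a2 := congrArg χ h1.2
  have b1 := congrArg χ h2.1
  have b2 := congrArg χ h2.2
  rw [map_ev, ev_ab] at a1 a2 b1 b2
  rw [hof] at b1 b2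
  rw [_root_.map_one] at a1 a2
  simp only [one_zpow, mul_one, one_mul] at a1 a2
  rw [a1] at b1
  rw [a2] at b2
  simp only [one_mul, mul_one] at b1 b2
  constructor
  · have := congrArg Multiplicative.toAdd b2
    simp only [toAdd_zpow, toAdd_ofAdd, smul_eq_mul, mul_one] at this
    exact Multiplicative.toAdd.injective this
  · have := congrArg Multiplicative.toAdd b1
    simp only [toAdd_zpow, toAdd_ofAdd, smul_eq_mul, mul_one] at this
    exact Multiplicative.toAdd.injective this

theorem assoc_of_N (w : FreeGroup (Fin 2)) (hN : PropertyN w) (x y z : F3) :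
    ev w (ev w x y) z = ev w x (ev w y z) := by
  have h : (ev w (ev w x y) z) * (ev w x (ev w y z))⁻¹ = 1 := by
    apply Pool.Agent.Helper189.FreeRep.lcs_bot
    intro n
    obtain ⟨hassoc, -⟩ := hN 3 (by norm_num) (n + 1) (by omega)
    have h1 := hassoc (QuotientGroup.mk' _ x) (QuotientGroup.mk' _ y) (QuotientGroup.mk' _ z)
    simp only at h1
    rw [← map_ev, ← map_ev, ← map_ev, ← map_ev] at h1
    have h2 : QuotientGroup.mk' (gam (FreeGroup (Fin 3)) (n + 1))
        ((ev w (ev w x y) z) * (ev w x (ev w y z))⁻¹) = 1 := by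
      rw [_root_.map_mul, h1, _root_.map_inv, mul_inv_cancel]
    have h3 := (QuotientGroup.eq_one_iff _).mp h2
    exact h3
  exact mul_inv_eq_one.mp h

/-- **Theorem.** A word `w ∈ F₂` has property (N) if and only if `w = ab` or `w = ba`. -/
theorem result (w : FreeGroup (Fin 2)) :
    PropertyN w ↔ w = of 0 * of 1 ∨ w = of 1 * of 0 := by
  constructor
  · intro hN
    obtain ⟨ha, hb⟩ := es_of_N w hN
    exact classify w (assoc_of_N w hN) ha hb
  · rintro (rfl | rfl)
    · intro n _ k _
      have h : ∀ x y : FreeGroup (Fin n) ⧸ gam (FreeGroup (Fin n)) k,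
          ev (of 0 * of 1) x y = x * y := by
        intro x y; simp [ev]
      refine ⟨fun x y z => ?_, 1, fun x => ⟨?_, ?_⟩, fun x => ⟨x⁻¹, ?_, ?_⟩⟩ <;>
        simp [h, mul_assoc]
    · intro n _ k _
      have h : ∀ x y : FreeGroup (Fin n) ⧸ gam (FreeGroup (Fin n)) k,
          ev (of 1 * of 0) x y = y * x := by
        intro x y; simp [ev]
      refine ⟨fun x y z => ?_, 1, fun x => ⟨?_, ?_⟩, fun x => ⟨x⁻¹, ?_, ?_⟩⟩ <;>
        simp [h, mul_assoc]

end Pool.Agent.Results.MP_c4ae4c_al.OnlyProducts
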